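import Pool.Agent.MP_321614_gt.Sol.Model

/-!
# A continuum all of whose real-valued maps nearly lift to the universal solenoid
-/

set_option autoImplicit false

open Set Real Topology Filter

namespace Pool.Agent.MP_321614_gt.Sol

open Pool.Agent.MP_321614_gt

/-- The ambient space. -/
abbrev ΩS : Type := ℕ → S

/-- Keep the first `n` coordinates. -/
noncomputable def truncS (n : ℕ) (ω : ΩS) : ΩS := fun k => if k < n then ω k else 1

lemma continuous_truncS (n : ℕ) : Continuous (truncS n) := by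
  refine continuous_pi fun k => ?_
  unfold truncS
  split_ifs
  · exact continuous_apply k
  · exact continuous_const

lemma tendstoUniformly_truncS : TendstoUniformly truncS id atTop := by
  rw [tendstoUniformly_iff_tendsto, Pi.uniformity, tendsto_iInf]
  intro k
  rw [tendsto_comap_iff]
  intro s hs
  rw [mem_map]
  filter_upwards [(eventually_gt_atTop k).prod_inl (⊤ : Filter ΩS)] with q hq
  simp only [truncS, hq, if_true, id, mem_preimage, Function.comp]
  exact refl_mem_uniformity hs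

/-- The `n`-th testS function; it depends only on the coordinates `≤ n`. -/
noncomputable def testS (n : ℕ) (ω : ΩS) : ℝ :=
  TopologicalSpace.denseSeq C(ΩS, ℝ) (Nat.unpair n).1 (truncS (n + 1) ω)

lemma continuous_testS (n : ℕ) : Continuous (testS n) :=
  (TopologicalSpace.denseSeq C(ΩS, ℝ) (Nat.unpair n).1).continuous.comp (continuous_truncS _)

lemma exists_testS (u : C(ΩS, ℝ)) : ∃ n, ∀ ω, |testS n ω - u ω| ≤ 1 / 1000 := by
  obtain ⟨k, hk⟩ := (TopologicalSpace.denseRange_denseSeq C(ΩS, ℝ)).exists_dist_lt u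
    (ε := 1 / 2000) (by norm_num)
  set w := TopologicalSpace.denseSeq C(ΩS, ℝ) k with hw
  have h1 := (CompactSpace.uniformContinuous_of_continuous w.continuous).comp_tendstoUniformly
    tendstoUniformly_truncS
  obtain ⟨N, hN⟩ := eventually_atTop.1 (Metric.tendstoUniformly_iff.1 h1 (1 / 2000) (by norm_num))
  refine ⟨Nat.pair k N, fun ω => ?_⟩
  have h2 := hN (Nat.pair k N + 1) ((Nat.right_le_pair k N).trans (Nat.le_succ _)) ω
  have h3 := (ContinuousMap.dist_apply_le_dist (f := u) (g := w) ω).trans_lt hk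
  simp only [Function.comp, id, Real.dist_eq] at h2 h3
  simp only [testS, Nat.unpair_pair, ← hw]
  rw [abs_lt] at h2 h3
  rw [abs_le]
  constructor <;> linarith [h2.1, h2.2, h3.1, h3.2]

/-- The inductive invariant. -/
def GoodS (n : ℕ) (C : Set ΩS) : Prop :=
  IsCompact C ∧ IsConnected C ∧ (∀ ω ∈ C, ∀ ω' : ΩS, (∀ k ≤ n, ω' k = ω k) → ω' ∈ C) ∧
    ∀ e : S, ∃ ω ∈ C, ω 0 = e

lemma good_univS : GoodS 0 univ :=
  ⟨isCompact_univ, isConnected_univ, fun _ _ _ _ => mem_univ _,
    fun e => ⟨fun _ => e, mem_univ _, rfl⟩⟩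

lemma good_stepS {n : ℕ} {C : Set ΩS} (hC : GoodS n C) :
    ∃ C', GoodS (n + 1) C' ∧ C' ⊆ C ∧ ∀ ω ∈ C', RelS (testS n ω) (ω (n + 1)) := by
  obtain ⟨hc, hconn, hinv, h0⟩ := hC
  have : CompactSpace C := isCompact_iff_compactSpace.1 hc
  have : ConnectedSpace C := Subtype.connectedSpace hconn
  obtain ⟨D, hDc, hDconn, hDrel, hDs⟩ := exists_liftS (X := C) (fun x => testS n x)
    ((continuous_testS n).comp continuous_subtype_val)
  let sp : (C × S) × ΩS → ΩS := fun q k =>
    if k ≤ n then (q.1.1 : ΩS) k else if k = n + 1 then q.1.2 else q.2 k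
  have csp : Continuous sp := by
    refine continuous_pi fun k => ?_
    simp only [sp]
    split_ifs
    · exact (continuous_apply k).comp (continuous_subtype_val.comp (by fun_prop))
    · fun_prop
    · fun_prop
  refine ⟨sp '' (D ×ˢ univ), ⟨(hDc.prod isCompact_univ).image csp,
    (hDconn.prod isConnected_univ).image _ csp.continuousOn, ?_, fun e => ?_⟩, ?_, ?_⟩
  · rintro _ ⟨⟨q, ω0⟩, ⟨hq, -⟩, rfl⟩ ω' h
    refine ⟨(q, ω'), ⟨hq, mem_univ _⟩, funext fun k => ?_⟩
    by_cases hk : k ≤ n + 1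
    · rw [h k hk]
      simp only [sp]
      split_ifs with h1 h2
      · rfl
      · rfl
      · omega
    · simp only [sp]
      rw [if_neg (by omega), if_neg (by omega)]
  · obtain ⟨ω, hω, he⟩ := h0 e
    obtain ⟨y, hy⟩ := hDs ⟨ω, hω⟩
    exact ⟨sp ((⟨ω, hω⟩, y), ω), ⟨_, ⟨hy, mem_univ _⟩, rfl⟩, by simp [sp, he]⟩
  · rintro _ ⟨⟨q, ω0⟩, ⟨-, -⟩, rfl⟩
    exact hinv _ q.1.2 _ fun k hk => by simp [sp, hk]
  · rintro _ ⟨⟨q, ω0⟩, ⟨hq, -⟩, rfl⟩
    have e1 : testS n (sp (q, ω0)) = testS n q.1 := by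
      unfold testS
      congr 1
      funext k
      simp only [truncS, sp]
      split_ifs with h1 h2 h3
      · rfl
      · omega
      · omega
      · rfl
    have e2 : sp (q, ω0) (n + 1) = q.2 := by simp [sp]
    rw [e1, e2]
    exact hDrel q hq

theorem exists_continuumS : ∃ M : Set ΩS, IsCompact M ∧ IsConnected M ∧ M.Nontrivial ∧
    ∀ u : M → ℝ, Continuous u → ∃ (p : M → S) (u' : M → ℝ), Continuous p ∧
      (∀ x, |u' x - u x| ≤ 1 / 1000) ∧ ∀ x, RelS (u' x) (p x) := by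
  let F : (n : ℕ) → {C : Set ΩS // GoodS n C} := fun n => Nat.rec ⟨univ, good_univS⟩
    (fun _ C => ⟨(good_stepS C.2).choose, (good_stepS C.2).choose_spec.1⟩) n
  have hsub : ∀ n, (F (n + 1)).1 ⊆ (F n).1 := fun n => (good_stepS (F n).2).choose_spec.2.1
  have hrel : ∀ n, ∀ ω ∈ (F (n + 1)).1, RelS (testS n ω) (ω (n + 1)) := fun n =>
    (good_stepS (F n).2).choose_spec.2.2
  have hcl : IsClosed (⋂ n, (F n).1) := isClosed_iInter fun n => (F n).2.1.isClosed
  have h0 : ∀ e : S, ∃ ω ∈ ⋂ n, (F n).1, ω 0 = e := fun e => by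
    have hc : IsClosed {ω : ΩS | ω 0 = e} := isClosed_eq (continuous_apply 0) continuous_const
    obtain ⟨x, hx⟩ := IsCompact.nonempty_iInter_of_sequence_nonempty_isCompact_isClosed
      (fun n => (F n).1 ∩ {ω : ΩS | ω 0 = e}) (fun n => inter_subset_inter_left _ (hsub n))
      (fun n => by
        obtain ⟨x, h1, h2⟩ := (F n).2.2.2.2 e
        exact ⟨x, h1, h2⟩)
      ((F 0).2.1.inter_right hc) (fun n => (F n).2.1.isClosed.inter hc)
    rw [mem_iInter] at hx
    exact ⟨x, mem_iInter.2 fun n => (hx n).1, (hx 0).2⟩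
  obtain ⟨a, ha, ha0⟩ := h0 1
  obtain ⟨b, hb, hb0⟩ := h0 (fun _ => -1)
  refine ⟨⋂ n, (F n).1, hcl.isCompact, ⟨⟨a, ha⟩, isPreconnected_iInter_of_antitone _ hsub
    (fun n => (F n).2.1) fun n => (F n).2.2.1.isPreconnected⟩, ⟨a, ha, b, hb, fun h => ?_⟩, ?_⟩
  · rw [h, hb0] at ha0
    have h1 : (-1 : Circle) = 1 := congrFun ha0 0
    have h2 : ((-1 : Circle) : ℂ) = ((1 : Circle) : ℂ) := congrArg _ h1
    norm_num at h2
  intro u hu
  obtain ⟨v, hv⟩ := ContinuousMap.exists_restrict_eq hcl (⟨u, hu⟩ : C((⋂ n, (F n).1 : Set ΩS), ℝ))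
  obtain ⟨n, hn⟩ := exists_testS v
  refine ⟨fun x => (x : ΩS) (n + 1), fun x => testS n x,
    (continuous_apply (n + 1)).comp continuous_subtype_val, fun x => ?_,
    fun x => hrel n _ (mem_iInter.1 x.2 (n + 1))⟩
  have : u x = v x := (congrArg (fun g : C((⋂ n, (F n).1 : Set ΩS), ℝ) => g x) hv).symm
  rw [this]
  exact hn x

end Pool.Agent.MP_321614_gt.Sol
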