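import Pool.Agent.MP_321614_gt.Sol.Descent

/-!
# What does not map onto the dyadic solenoid

Checks for the Relation line of `OntoSolenoids`: a connected space whose map to the first circle
has a continuous logarithm does not map onto the dyadic solenoid; this covers chainable continua.
-/

set_option autoImplicit false

open Set Real Topology Filter

namespace Pool.Agent.MP_321614_gt.Sol

open Pool.Agent.MP_321614_gt

lemma not_onto_dyadic {P : Type*} [TopologicalSpace P] [PreconnectedSpace P] (g : P → ℕ → Circle)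
    (hg : Continuous g) (hr : range g = {w | ∀ n, w (n + 1) ^ 2 = w n}) (θ : P → ℝ)
    (hθ : Continuous θ) (hθg : ∀ x, Circle.exp (θ x) = g x 0) : False := by
  have hs : ∀ x n, g x (n + 1) ^ 2 = g x n := fun x => by
    have : g x ∈ range g := mem_range_self x
    rw [hr] at this
    exact this
  have hp : ∀ x n, g x n ^ (2 ^ n) = g x 0 := fun x n => by
    induction n with
    | zero => simp
    | succ n ih => rw [pow_succ', pow_mul, hs, ih]
  have hconst : ∀ n x y, g x n * Circle.exp (-θ x / 2 ^ n) = g y n * Circle.exp (-θ y / 2 ^ n) :=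
    fun n x y => by
      refine isPreconnected_univ.constant_of_mapsTo
        (finite_roots 1 (n := 2 ^ n) (by positivity)).isDiscrete
        (f := fun x => g x n * Circle.exp (-θ x / 2 ^ n)) (by fun_prop) (fun z _ => ?_)
        (mem_univ _) (mem_univ _)
      change (g z n * Circle.exp (-θ z / 2 ^ n)) ^ (2 ^ n) = 1
      rw [mul_pow, hp, exp_pow, ← hθg, ← Circle.exp_add]
      have : θ z + ((2 ^ n : ℕ) : ℝ) * (-θ z / 2 ^ n) = 0 := by
        push_cast
        field_simp
        ring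
      rw [this, Circle.exp_zero]
  obtain ⟨x, hx⟩ : (fun n : ℕ => Circle.exp (2 * π * 2 ^ n / 3)) ∈ range g := by
    rw [hr]
    intro n
    simp only [exp_pow]
    exact Circle.exp_eq_exp.2 ⟨2 ^ n, by push_cast; ring⟩
  obtain ⟨y, hy⟩ : (fun _ => (1 : Circle)) ∈ range g := by
    rw [hr]
    intro n
    simp
  have h1 : ∀ n : ℕ, ∃ l : ℤ, 2 * π * 2 ^ n / 3 + -θ x / 2 ^ n = -θ y / 2 ^ n + l * (2 * π) :=
    fun n => by
      have h := hconst n x y
      rw [hx, hy, one_mul, ← Circle.exp_add] at h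
      exact Circle.exp_eq_exp.1 h
  obtain ⟨n, hn⟩ := pow_unbounded_of_one_lt (|θ x - θ y| * 3 / (2 * π)) (one_lt_two (α := ℝ))
  obtain ⟨l, hl⟩ := h1 n
  have hpos : (0 : ℝ) < 2 ^ n := by positivity
  have e : (θ x - θ y) * 3 / (2 * π) = 2 ^ n * ((2 ^ n - 3 * l : ℤ) : ℝ) := by
    push_cast
    field_simp
    field_simp at hl
    linarith
  have e2 : |θ x - θ y| * 3 / (2 * π) = 2 ^ n * |((2 ^ n - 3 * l : ℤ) : ℝ)| := by
    rw [← abs_of_pos hpos, ← abs_mul, ← e, abs_div, abs_mul, abs_of_pos two_pi_pos]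
    norm_num
  rw [e2] at hn
  have h2 : |((2 ^ n - 3 * l : ℤ) : ℝ)| < 1 := by
    by_contra hcon
    push Not at hcon
    nlinarith
  rw [← Int.cast_abs] at h2
  have h3 : (2 ^ n - 3 * l : ℤ) = 0 := Int.abs_lt_one_iff.1 (by exact_mod_cast h2)
  have h4 : (3 : ℤ) ∣ 2 ^ n := ⟨l, by linarith⟩
  have h5 : 3 ∣ 2 ^ n := by exact_mod_cast h4
  have h6 := Nat.prime_three.dvd_of_dvd_pow h5
  omega

/-- A set that maps onto the dyadic solenoid receives no onto map from a connected space all of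
whose circle-valued maps have logarithms. -/
theorem not_image_of_acyclic {Y P : Type*} [TopologicalSpace Y] [TopologicalSpace P]
    [PreconnectedSpace P] (hP : ∀ z : P → Circle, Continuous z →
      ∃ θ : P → ℝ, Continuous θ ∧ ∀ x, Circle.exp (θ x) = z x)
    (K : Set Y) (g : Y → ℕ → Circle) (hg : Continuous g)
    (hK : g '' K = {w | ∀ n, w (n + 1) ^ 2 = w n}) (h : P → Y) (hh : Continuous h) :
    range h ≠ K := fun e => by
  obtain ⟨θ, hθ, hθg⟩ := hP (fun x => g (h x) 0) (by fun_prop)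
  exact not_onto_dyadic (g ∘ h) (hg.comp hh) (by rw [range_comp, e, hK]) θ hθ hθg

/-- A continuum that maps onto the dyadic solenoid is not chainable (wording of the frozen
statement). -/
theorem not_chainable {Y : Type*} [MetricSpace Y] (K : Set Y) (hKc : IsCompact K)
    (hK : IsConnected K) (g : Y → ℕ → Circle) (hg : Continuous g)
    (hgK : g '' K = {w | ∀ n, w (n + 1) ^ 2 = w n}) :
    ¬ ∀ ε : ℝ, 0 < ε → ∃ (n : ℕ) (U : Fin n → Set Y),
      (∀ i, IsOpen (U i)) ∧ (∀ i, Metric.diam (U i ∩ K) < ε) ∧ K ⊆ ⋃ i, U i ∧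
      (∀ i j, (U i ∩ U j ∩ K).Nonempty ↔ (i.val ≤ j.val + 1 ∧ j.val ≤ i.val + 1)) := by
  intro hch
  obtain ⟨δ, hδ, hδs⟩ := Metric.uniformContinuousOn_iff.1
    (hKc.uniformContinuousOn_of_continuous (f := fun y => g y 0) (by fun_prop)) (1 / 2)
    (by norm_num)
  obtain ⟨n, U, hUo, hUd, hUc, hUch⟩ := hch δ hδ
  have : PreconnectedSpace K := Subtype.preconnectedSpace hK.isPreconnected
  obtain ⟨θ, hθ, hθz⟩ := chain_lift (H := K) (fun x => g x 0) (by fun_prop) n
    (fun i => {x | (x : Y) ∈ U i}) (fun i => (hUo i).preimage continuous_subtype_val)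
    (fun x => by have := mem_iUnion.1 (hUc x.2); exact this)
    (fun i j => by
      rw [← hUch]
      constructor
      · rintro ⟨x, h1, h2⟩
        exact ⟨x, ⟨h1, h2⟩, x.2⟩
      · rintro ⟨y, ⟨h1, h2⟩, h3⟩
        exact ⟨⟨y, h3⟩, h1, h2⟩)
    (fun i x hx y hy => hδs _ x.2 _ y.2 ((Metric.dist_le_diam_of_mem
      (hKc.isBounded.subset inter_subset_right) ⟨hx, x.2⟩ ⟨hy, y.2⟩).trans_lt (hUd i)))
  exact not_onto_dyadic (fun x : K => g x) (by fun_prop)
    (by rw [← hgK, image_eq_range]) θ hθ hθz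

end Pool.Agent.MP_321614_gt.Sol
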