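import Pool.Agent.MP_321614_gt.Sol.Build
import Mathlib.Analysis.Convex.PartitionOfUnity

/-!
# Maps to the solenoid descend to monotone images
-/

set_option autoImplicit false

open Set Real Topology Filter

namespace Pool.Agent.MP_321614_gt.Sol

open Pool.Agent.MP_321614_gt

lemma finite_roots (c : Circle) {n : ℕ} (hn : 0 < n) : {z : Circle | z ^ n = c}.Finite := by
  refine Finite.of_finite_image (f := fun z : Circle => (z : ℂ))
    ((Polynomial.nthRootsFinset n (c : ℂ)).finite_toSet.subset ?_) Circle.coe_injective.injOn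
  rintro _ ⟨z, hz, rfl⟩
  have hz' : z ^ n = c := hz
  rw [Finset.mem_coe, Polynomial.mem_nthRootsFinset hn, ← hz']
  simp

/-- A map of a connected set into one fibre of the solenoid over the circle is constant. -/
lemma sol_const {X : Type*} [TopologicalSpace X] {A : Set X} (hA : IsPreconnected A) {H : X → S}
    (hH : ContinuousOn H A) (hs : ∀ x ∈ A, IsSol (H x)) {c : Circle} (hc : ∀ x ∈ A, H x 1 = c)
    {x y : X} (hx : x ∈ A) (hy : y ∈ A) : H x = H y := by
  funext n
  rcases Nat.eq_zero_or_pos n with rfl | hn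
  · rw [(hs x hx).1, (hs y hy).1]
  · refine hA.constant_of_mapsTo (finite_roots c hn).isDiscrete (f := fun x => H x n)
      ((continuous_apply n).comp_continuousOn hH) (fun z hz => ?_) hx hy
    change H z n ^ n = c
    rw [(hs z hz).pow_self hn, hc z hz]

/-- A connected subset of the solenoid that misses a value in some coordinate lies in one coset
of the one-parameter subgroup. -/
lemma coset {X : Type*} [TopologicalSpace X] {A : Set X} (hA : IsPreconnected A) {G : X → S}
    (hG : ContinuousOn G A) (hs : ∀ x ∈ A, IsSol (G x)) {n : ℕ} (hn : 0 < n) {ζ : Circle}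
    (hζ : ∀ x ∈ A, G x n ≠ ζ) {x y : X} (hx : x ∈ A) (hy : y ∈ A) : ∃ t, G y = G x * ee t := by
  let θ : X → ℝ := fun z => Complex.arg ((G z n / (-ζ) : Circle) : ℂ)
  have hθ : ∀ z, G z n = -ζ * Circle.exp (θ z) := fun z => by
    simp only [θ]
    rw [Circle.exp_arg, mul_div_cancel]
  have c1 : ContinuousOn (fun z => ((G z n / (-ζ) : Circle) : ℂ)) A :=
    continuous_subtype_val.comp_continuousOn
      (((continuous_apply n).comp_continuousOn hG).div_const _)
  have cθ : ContinuousOn θ A := fun z hz => by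
    refine ContinuousAt.comp_continuousWithinAt (f := fun z => ((G z n / (-ζ) : Circle) : ℂ))
      (Complex.continuousAt_arg ?_) (c1 z hz)
    rw [Complex.mem_slitPlane_iff_arg]
    refine ⟨fun h => hζ z hz ?_, Circle.coe_ne_zero _⟩
    have h' : θ z = π := h
    rw [hθ z, h']
    ext
    simp [Circle.coe_exp]
  have key := sol_const hA (H := fun z => G z * ee (-(n * θ z)))
    (hG.mul (continuous_ee.comp_continuousOn (continuousOn_const.mul cθ).neg))
    (fun z hz => (hs z hz).mul (isSol_ee _)) (c := (-ζ) ^ n) (fun z hz => by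
      simp only [Pi.mul_apply, ee_one]
      rw [← (hs z hz).pow_self hn, hθ z, mul_pow, exp_pow, mul_assoc, ← Circle.exp_add,
        add_neg_cancel, Circle.exp_zero, mul_one]) hx hy
  refine ⟨-(n * θ x) + n * θ y, ?_⟩
  rw [ee_add, ← mul_assoc, key, mul_assoc, ← ee_add, neg_add_cancel, ee_zero, mul_one]

/-- The lifting property. -/
def Lifts (M : Type) [TopologicalSpace M] : Prop :=
  ∀ u : M → ℝ, Continuous u → ∃ (p : M → S) (u' : M → ℝ), Continuous p ∧
    (∀ x, |u' x - u x| ≤ 1 / 1000) ∧ ∀ x, RelS (u' x) (p x)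

lemma not_coset (s t : ℝ) : ee π * ee s ≠ bb * ee t := fun h =>
  bb_ne (π + s + -t) (by rw [ee_add, ee_add, h, mul_assoc, ← ee_add, add_neg_cancel, ee_zero,
    mul_one])

/-- Intersecting subcontinua are nested. -/
theorem nested {M : Type} [MetricSpace M] (hM : Lifts M) (A B : Set M) (hA : IsCompact A)
    (hAc : IsConnected A) (hB : IsCompact B) (hBc : IsConnected B) (hAB : (A ∩ B).Nonempty) :
    A ⊆ B ∨ B ⊆ A := by
  by_contra hcon
  push Not at hcon
  obtain ⟨a, haA, haB⟩ := not_subset.1 hcon.1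
  obtain ⟨b, hbB, hbA⟩ := not_subset.1 hcon.2
  obtain ⟨c, hcA, hcB⟩ := hAB
  have da : 0 < Metric.infDist a B := (hB.isClosed.notMem_iff_infDist_pos ⟨b, hbB⟩).1 haB
  have db : 0 < Metric.infDist b A := (hA.isClosed.notMem_iff_infDist_pos ⟨a, haA⟩).1 hbA
  obtain ⟨p, u', hp, hu', hrel⟩ := hM (fun x => 2 * Metric.infDist x A / Metric.infDist b A -
    2 * Metric.infDist x B / Metric.infDist a B) (by fun_prop)
  have h1 : ∀ x ∈ A, p x 1 ≠ 1 := fun x hx h => by
    have e := (hrel x).2.1
    have h2 := (abs_le.1 (hu' x)).2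
    rw [Metric.infDist_zero_of_mem hx] at h2
    have h3 : 0 ≤ 2 * Metric.infDist x B / Metric.infDist a B :=
      div_nonneg (mul_nonneg zero_le_two Metric.infDist_nonneg) da.le
    rw [h, Circle.coe_one, Complex.one_re] at e
    have h4 : max (-1) (min (u' x) 1) ≤ 1 / 1000 :=
      max_le (by norm_num) ((min_le_left _ _).trans (by
        simp only [mul_zero, zero_div] at h2; linarith))
    linarith
  have h2 : ∀ x ∈ B, p x 1 ≠ -1 := fun x hx h => by
    have e := (hrel x).2.1
    have h2 := (abs_le.1 (hu' x)).1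
    rw [Metric.infDist_zero_of_mem hx] at h2
    have h3 : 0 ≤ 2 * Metric.infDist x A / Metric.infDist b A :=
      div_nonneg (mul_nonneg zero_le_two Metric.infDist_nonneg) db.le
    have e' : ((-1 : Circle) : ℂ).re = -1 := by simp
    rw [h, e'] at e
    have h4 : -(1 / 1000) ≤ max (-1) (min (u' x) 1) :=
      le_max_of_le_right (le_min (by simp only [mul_zero, zero_div] at h2; linarith) (by norm_num))
    linarith
  obtain ⟨s, hs⟩ := coset hAc.isPreconnected hp.continuousOn (fun x _ => (hrel x).1) one_pos h1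
    haA hcA
  obtain ⟨t, ht⟩ := coset hBc.isPreconnected hp.continuousOn (fun x _ => (hrel x).1) one_pos h2
    hbB hcB
  have ea : p a = ee π := (hrel a).2.2.1 (by
    have h := (abs_le.1 (hu' a)).2
    rw [Metric.infDist_zero_of_mem haA, mul_div_assoc 2 (Metric.infDist a B), div_self da.ne'] at h
    simp only [mul_zero, zero_div] at h
    linarith)
  have eb : p b = bb := (hrel b).2.2.2 (by
    have h := (abs_le.1 (hu' b)).1
    rw [Metric.infDist_zero_of_mem hbB, mul_div_assoc 2 (Metric.infDist b A), div_self db.ne'] at h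
    simp only [mul_zero, zero_div] at h
    linarith)
  exact not_coset s t (by rw [← ea, ← eb, ← hs, ← ht])

/-- Two points of a monotone image are sent to different cosets by some map to the solenoid. -/
theorem descend {M : Type} [MetricSpace M] [CompactSpace M] (hM : Lifts M)
    (Y : Type) [MetricSpace Y] (f : M → Y) (hf : Continuous f) (hfs : Function.Surjective f)
    (hfib : ∀ y : Y, IsConnected (f ⁻¹' {y})) {k0 k1 : Y} (hne : k0 ≠ k1) :
    ∃ G : Y → S, Continuous G ∧ (∀ y, IsSol (G y)) ∧ ∀ t, G k1 ≠ G k0 * ee t := by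
  have hd : 0 < dist k0 k1 := dist_pos.2 hne
  obtain ⟨p, u', hp, hu', hrel⟩ := hM (fun x => 4 * dist k0 (f x) / dist k0 k1 - 2) (by fun_prop)
  have hz : Continuous fun x => p x 1 := by fun_prop
  have hfibre : ∀ x y, f x = f y → dist (p x 1) (p y 1) < 1 / 4 := by
    intro x y hxy
    refine small_of_preconnected _ hz (hfib (f y)).isPreconnected ?_ x hxy y rfl
    intro a ha b hb
    rw [(hrel a).2.1, (hrel b).2.1]
    refine (abs_clamp_sub _ _).trans ?_
    have h1 := abs_le.1 (hu' a)
    have h2 := abs_le.1 (hu' b)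
    have ha' : f a = f y := ha
    have hb' : f b = f y := hb
    rw [ha'] at h1
    rw [hb'] at h2
    rw [abs_le]
    constructor <;> linarith [h1.1, h1.2, h2.1, h2.2]
  obtain ⟨δ, hδ, hδs⟩ : ∃ δ : ℝ, 0 < δ ∧
      ∀ x y, dist (f x) (f y) < δ → dist (p x 1) (p y 1) < 1 / 2 := by
    have hc : IsCompact {q : M × M | 1 / 2 ≤ dist (p q.1 1) (p q.2 1)} :=
      (isClosed_le continuous_const (by fun_prop)).isCompact
    obtain ⟨δ, hδ, hδ'⟩ := hc.exists_forall_le' (f := fun q : M × M => dist (f q.1) (f q.2))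
      (by fun_prop) (a := 0) (fun q hq => dist_pos.2 fun h => by
        have h1 := hfibre _ _ h
        have h2 : 1 / 2 ≤ dist (p q.1 1) (p q.2 1) := hq
        linarith)
    refine ⟨δ, hδ, fun x y hxy => ?_⟩
    by_contra hcon
    exact absurd (hδ' (x, y) (not_lt.1 hcon)) (not_le.2 hxy)
  have hY : CompactSpace Y := hfs.compactSpace hf
  obtain ⟨g, hg⟩ := exists_continuous_forall_mem_convex_of_local_const (X := Y) (E := ℂ)
    (t := fun y => ⋂ x ∈ f ⁻¹' {y}, Metric.ball ((p x 1 : Circle) : ℂ) (1 / 2))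
    (fun y => convex_iInter₂ fun x _ => convex_ball _ _) (fun y => by
      obtain ⟨x0, rfl⟩ := hfs y
      refine ⟨(p x0 1 : Circle), ?_⟩
      filter_upwards [Metric.ball_mem_nhds (f x0) hδ] with y hy
      refine mem_iInter₂.2 fun x hx => ?_
      have hx' : f x = y := hx
      exact hδs x0 x (by rw [hx', dist_comm]; exact hy))
  have hg' : ∀ x, ‖g (f x) / (p x 1 : Circle) - 1‖ < 1 / 2 := fun x => by
    have h1 : g (f x) ∈ Metric.ball ((p x 1 : Circle) : ℂ) (1 / 2) :=
      mem_iInter₂.1 (hg (f x)) x rfl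
    have e : g (f x) / (p x 1 : Circle) - 1 = (g (f x) - (p x 1 : Circle)) / (p x 1 : Circle) := by
      field_simp
    rw [e, norm_div, Circle.norm_coe, div_one, ← dist_eq_norm]
    exact h1
  have hre : ∀ x, 0 < (g (f x) / (p x 1 : Circle)).re := fun x => by
    have h2 := (Complex.abs_re_le_norm _).trans_lt (hg' x)
    rw [Complex.sub_re, Complex.one_re] at h2
    linarith [(abs_lt.1 h2).1]
  let c : M → ℝ := fun x => Complex.arg (g (f x) / (p x 1 : Circle))
  have cc : Continuous c := continuous_iff_continuousAt.2 fun x =>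
    ContinuousAt.comp (f := fun x => g (f x) / (p x 1 : Circle))
      (Complex.continuousAt_arg (Or.inl (hre x)))
      ((g.continuous.comp hf).continuousAt.div
        (continuous_subtype_val.comp hz).continuousAt (Circle.coe_ne_zero _))
  let p' : M → S := fun x => p x * ee (c x)
  have cp' : Continuous p' := hp.mul (continuous_ee.comp cc)
  have sp' : ∀ x, IsSol (p' x) := fun x => (hrel x).1.mul (isSol_ee _)
  have e1 : ∀ x, ((p' x 1 : Circle) : ℂ) = g (f x) / ‖g (f x)‖ := fun x => by
    have h0 : g (f x) ≠ 0 := fun h => by simpa [h] using hre x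
    have h1 := Complex.norm_mul_exp_arg_mul_I (g (f x) / (p x 1 : Circle))
    rw [norm_div, Circle.norm_coe, div_one] at h1
    have h2 : (‖g (f x)‖ : ℂ) ≠ 0 := by exact_mod_cast norm_ne_zero_iff.2 h0
    have h3 := Circle.coe_ne_zero (p x 1)
    simp only [p', Pi.mul_apply, ee_one, Circle.coe_mul, Circle.coe_exp, c]
    rw [eq_div_iff h3] at h1
    rw [eq_div_iff h2]
    linear_combination h1
  have hconst : ∀ x y, f x = f y → p' x = p' y := fun x y hxy =>
    sol_const (hfib (f y)).isPreconnected cp'.continuousOn (fun z _ => sp' z) (c := p' y 1)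
      (fun z hz => by
        have hz' : f z = f y := hz
        ext
        rw [e1, e1, hz']) hxy rfl
  choose σ hσ using hfs
  have hG : ∀ x, p' (σ (f x)) = p' x := fun x => hconst _ _ (hσ _)
  refine ⟨fun y => p' (σ y), ?_, fun y => sp' _, fun t ht => ?_⟩
  · rw [(hf.isClosedMap.isQuotientMap hf fun y => ⟨σ y, hσ y⟩).continuous_iff]
    exact cp'.congr fun x => (hG x).symm
  · have ea : p (σ k0) = ee π := (hrel _).2.2.1 (by
      have h1 := (abs_le.1 (hu' (σ k0))).2
      rw [hσ, dist_self] at h1
      simp only [mul_zero, zero_div] at h1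
      linarith)
    have eb : p (σ k1) = bb := (hrel _).2.2.2 (by
      have h1 := (abs_le.1 (hu' (σ k1))).1
      rw [hσ, mul_div_assoc, div_self hd.ne'] at h1
      linarith)
    simp only [p'] at ht
    rw [ea, eb, mul_assoc, ← ee_add] at ht
    exact not_coset _ _ ht.symm

/-- Every nondegenerate subcontinuum of a monotone image maps onto every solenoid. -/
theorem onto_solenoid {M : Type} [MetricSpace M] [CompactSpace M] (hM : Lifts M)
    (Y : Type) [MetricSpace Y] (f : M → Y) (hf : Continuous f) (hfs : Function.Surjective f)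
    (hfib : ∀ y : Y, IsConnected (f ⁻¹' {y})) (K : Set Y) (hK : IsCompact K)
    (hKc : IsConnected K) (hKn : K.Nontrivial) (m : ℕ → ℕ) (hm : ∀ n, 0 < m n) :
    ∃ g : Y → ℕ → Circle, Continuous g ∧ g '' K = {w | ∀ n, w (n + 1) ^ m n = w n} := by
  obtain ⟨k0, hk0, k1, hk1, hne⟩ := hKn
  obtain ⟨G, hG, hs, hcos⟩ := descend hM Y f hf hfs hfib hne
  let N : ℕ → ℕ := fun n => ∏ i ∈ Finset.range n, m i
  have hN : ∀ n, 0 < N n := fun n => Finset.prod_pos fun i _ => hm i
  have hstep : ∀ y n, G y (N (n + 1)) ^ m n = G y (N n) := fun y n => by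
    have e : N (n + 1) = m n * N n := by
      simp only [N]
      rw [Finset.prod_range_succ, mul_comm]
    rw [e]
    exact (hs y).2 _ _ (hm n) (hN n)
  have cg : ∀ n, Continuous fun y => G y (N n) := fun n => (continuous_apply _).comp hG
  refine ⟨fun y n => G y (N n), continuous_pi cg, Subset.antisymm ?_ fun w hw => ?_⟩
  · rintro _ ⟨y, -, rfl⟩ n
    exact hstep y n
  · obtain ⟨y, hy⟩ := IsCompact.nonempty_iInter_of_sequence_nonempty_isCompact_isClosed
      (fun n => K ∩ {y | G y (N n) = w n})
      (fun n y hy => ⟨hy.1, by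
        have h : G y (N (n + 1)) = w (n + 1) := hy.2
        change G y (N n) = w n
        rw [← hstep, h, hw n]⟩)
      (fun n => by
        by_contra hcon
        obtain ⟨t, ht⟩ := coset hKc.isPreconnected hG.continuousOn (fun y _ => hs y) (hN n)
          (ζ := w n) (fun y hy h => hcon ⟨y, hy, h⟩) hk0 hk1
        exact hcos t ht)
      (hK.inter_right (isClosed_eq (cg 0) continuous_const))
      (fun n => hK.isClosed.inter (isClosed_eq (cg n) continuous_const))
    rw [mem_iInter] at hy
    exact ⟨y, (hy 0).1, funext fun n => (hy n).2⟩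

end Pool.Agent.MP_321614_gt.Sol
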