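import Pool.Agent.MP_321614_gt.Construct
import Mathlib.RingTheory.RootsOfUnity.Basic
import Mathlib.Topology.Sequences

/-!
# The universal solenoid as a model

`IsSol w` says that `w n` (`n ≥ 1`) is a coherent family of roots of `w 1`.  `ee` is the
one-parameter subgroup.  `bb` is a point over `1` that is not on the one-parameter subgroup.
-/

set_option autoImplicit false

open Set Real Topology Filter

namespace Pool.Agent.MP_321614_gt.Sol

open Pool.Agent.MP_321614_gt

/-- The coordinate space. -/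
abbrev S : Type := ℕ → Circle

/-- Points of the universal solenoid. -/
def IsSol (w : S) : Prop := w 0 = 1 ∧ ∀ a b : ℕ, 0 < a → 0 < b → w (a * b) ^ a = w b

/-- The one-parameter subgroup. -/
noncomputable def ee (t : ℝ) : S := fun n => Circle.exp (t / n)

lemma continuous_ee : Continuous ee :=
  continuous_pi fun _ => Circle.exp.continuous.comp (continuous_id.div_const _)

lemma ee_add (s t : ℝ) : ee (s + t) = ee s * ee t := by
  funext n
  simp only [ee, Pi.mul_apply, add_div, Circle.exp_add]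

lemma ee_zero : ee 0 = 1 := by
  funext n
  simp [ee]

lemma ee_one (t : ℝ) : ee t 1 = Circle.exp t := by simp [ee]

lemma exp_pow (t : ℝ) (n : ℕ) : Circle.exp t ^ n = Circle.exp (n * t) := by
  induction n with
  | zero => simp
  | succ n ih => rw [pow_succ, ih, ← Circle.exp_add]; congr 1; push_cast; ring

lemma isSol_ee (t : ℝ) : IsSol (ee t) := by
  refine ⟨by simp [ee], fun a b ha hb => ?_⟩
  have ha' : (a : ℝ) ≠ 0 := by positivity
  have hb' : (b : ℝ) ≠ 0 := by positivity
  simp only [ee, exp_pow]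
  congr 1
  push_cast
  field_simp

lemma IsSol.mul {v w : S} (hv : IsSol v) (hw : IsSol w) : IsSol (v * w) := by
  refine ⟨by simp [hv.1, hw.1], fun a b ha hb => ?_⟩
  simp only [Pi.mul_apply, mul_pow, hv.2 a b ha hb, hw.2 a b ha hb]

lemma IsSol.pow_self {w : S} (hw : IsSol w) {n : ℕ} (hn : 0 < n) : w n ^ n = w 1 := by
  simpa using hw.2 n 1 hn one_pos

lemma isClosed_isSol : IsClosed {w : S | IsSol w} := by
  have h1 : IsClosed {w : S | w 0 = 1} := isClosed_eq (continuous_apply 0) continuous_const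
  have h2 : IsClosed {w : S | ∀ a b : ℕ, 0 < a → 0 < b → w (a * b) ^ a = w b} := by
    simp only [ofPred_forall]
    refine isClosed_iInter fun a => isClosed_iInter fun b => isClosed_iInter fun _ =>
      isClosed_iInter fun _ => isClosed_eq ((continuous_apply _).pow _) (continuous_apply _)
  exact h1.inter h2

/-- `3 * (JJ k + 1) + 1 = 4 ^ (k + 1)`. -/
def JJ : ℕ → ℕ
  | 0 => 0
  | k + 1 => 4 * JJ k + 4

lemma JJ_spec (k : ℕ) : 3 * (JJ k + 1) + 1 = 4 ^ (k + 1) := by
  induction k with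
  | zero => rfl
  | succ k ih => rw [pow_succ, ← ih, JJ]; ring

theorem exists_bb : ∃ b : S, IsSol b ∧ b 1 = 1 ∧ (∀ t, b ≠ ee t) ∧
    ∃ J : ℕ → ℕ, Tendsto (fun k => ee (((J k : ℝ) + 1) * (2 * π))) atTop (𝓝 b) := by
  obtain ⟨b, φ, hφ, hb⟩ := CompactSpace.tendsto_subseq
    (fun k => ee (((JJ k : ℝ) + 1) * (2 * π)))
  have h1 : b 1 = 1 := by
    have h := (continuous_apply 1).continuousAt.tendsto.comp hb
    have e : ((fun w : S => w 1) ∘ (fun k => ee (((JJ k : ℝ) + 1) * (2 * π))) ∘ φ) =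
        fun _ => 1 := by
      funext k
      simp only [Function.comp, ee_one]
      exact Circle.exp_eq_one.2 ⟨(JJ (φ k) : ℤ) + 1, by push_cast; ring⟩
    rw [e] at h
    exact (tendsto_nhds_unique tendsto_const_nhds h).symm
  have h2 : ∀ n : ℕ, b (2 ^ n) ^ 3 = Circle.exp (-(2 * π) / 2 ^ n) := fun n => by
    have h := ((continuous_apply (2 ^ n)).pow 3).continuousAt.tendsto.comp hb
    refine tendsto_nhds_unique h (tendsto_const_nhds.congr' ?_)
    filter_upwards [eventually_ge_atTop n] with k hk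
    have hk' : n ≤ φ k := hk.trans (hφ.id_le k)
    simp only [Function.comp, Pi.pow_apply, ee, exp_pow]
    obtain ⟨d, hd⟩ : ∃ d, 2 * (φ k + 1) = n + d := ⟨2 * (φ k + 1) - n, by omega⟩
    have e : (3 : ℝ) * ((JJ (φ k) : ℝ) + 1) + 1 = 2 ^ n * 2 ^ d := by
      have := JJ_spec (φ k)
      rw [show (4 : ℕ) = 2 ^ 2 by norm_num, ← pow_mul, hd, pow_add] at this
      exact_mod_cast this
    symm
    refine Circle.exp_eq_exp.2 ⟨2 ^ d, ?_⟩
    push_cast
    field_simp
    linarith
  refine ⟨b, isClosed_isSol.mem_of_tendsto hb (Eventually.of_forall fun k => isSol_ee _), h1,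
    fun t ht => ?_, fun k => JJ (φ k), hb⟩
  rw [ht, ee_one] at h1
  obtain ⟨m, hm⟩ := Circle.exp_eq_one.1 h1
  obtain ⟨n, hn⟩ : ∃ n : ℕ, |3 * m + 1| < 2 ^ n := by
    refine ⟨(|3 * m + 1|).toNat, ?_⟩
    have h3 : ((|3 * m + 1|).toNat : ℤ) = |3 * m + 1| := Int.toNat_of_nonneg (abs_nonneg _)
    have h4 := Nat.lt_two_pow_self (n := (|3 * m + 1|).toNat)
    rw [← h3]
    exact_mod_cast h4
  have h3 := h2 n
  rw [ht] at h3
  simp only [ee, exp_pow] at h3
  obtain ⟨l, hl⟩ := Circle.exp_eq_exp.1 h3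
  rw [hm] at hl
  have h4 : ((3 * m + 1 : ℤ) : ℝ) = ((l * 2 ^ n : ℤ) : ℝ) := by
    push_cast at hl ⊢
    field_simp at hl
    linarith
  have h5 : 3 * m + 1 = l * 2 ^ n := Int.cast_injective h4
  have h6 : l = 0 := by
    by_contra h0
    have h7 : 1 ≤ |l| := Int.one_le_abs h0
    rw [h5, abs_mul, abs_of_pos (by positivity : (0 : ℤ) < 2 ^ n)] at hn
    have : (0 : ℤ) < 2 ^ n := by positivity
    nlinarith
  rw [h6] at h5
  omega

/-- The exit point. -/
noncomputable def bb : S := exists_bb.choose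

lemma isSol_bb : IsSol bb := exists_bb.choose_spec.1
lemma bb_one : bb 1 = 1 := exists_bb.choose_spec.2.1
lemma bb_ne (t : ℝ) : bb ≠ ee t := exists_bb.choose_spec.2.2.1 t

/-- The solenoid relation. -/
def RelS (t : ℝ) (w : S) : Prop :=
  IsSol w ∧ (w 1 : ℂ).re = max (-1) (min t 1) ∧ (t < -1 → w = ee π) ∧ (1 < t → w = bb)

lemma isClosed_relS : IsClosed {q : ℝ × S | RelS q.1 q.2} := by
  have h1 : IsClosed {q : ℝ × S | IsSol q.2} := isClosed_isSol.preimage continuous_snd
  have h2 : IsClosed {q : ℝ × S | (q.2 1 : ℂ).re = max (-1) (min q.1 1)} :=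
    isClosed_eq (by fun_prop) (by fun_prop)
  have h3 : IsClosed {q : ℝ × S | q.1 < -1 → q.2 = ee π} :=
    isClosed_imp (isOpen_lt (by fun_prop) (by fun_prop)) (isClosed_eq (by fun_prop) (by fun_prop))
  have h4 : IsClosed {q : ℝ × S | 1 < q.1 → q.2 = bb} :=
    isClosed_imp (isOpen_lt (by fun_prop) (by fun_prop)) (isClosed_eq (by fun_prop) (by fun_prop))
  exact h1.inter (h2.inter (h3.inter h4))

/-- The last sheet. -/
noncomputable def lm (φ : ℝ) : S := bb * ee φ

lemma continuous_lm : Continuous lm := continuous_const.mul continuous_ee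

lemma relS_ee {t φ : ℝ} (hc : cos φ = max (-1) (min t 1)) (h1 : t < -1 → φ = π)
    (h2 : t ≤ 1) : RelS t (ee φ) :=
  ⟨isSol_ee φ, by rw [ee_one, re_exp, hc], fun ht => by rw [h1 ht],
    fun ht => absurd ht (not_lt.2 h2)⟩

lemma relS_lm {t : ℝ} (h : -1 ≤ t) : RelS t (lm (-arccos t)) := by
  refine ⟨isSol_bb.mul (isSol_ee _), ?_, fun ht => absurd ht (not_lt.2 h), fun ht => ?_⟩
  · simp only [lm, Pi.mul_apply, bb_one, one_mul, ee_one, re_exp, cos_neg, cos_arccos_clamp]
  · rw [lm, arccos_of_one_le ht.le, neg_zero, ee_zero, mul_one]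

lemma relS_dn (j : ℕ) {t : ℝ} (h1 : t < -1 → j = 0) (h2 : t ≤ 1) : RelS t (ee (dn j t)) := by
  refine relS_ee ?_ (fun ht => ?_) h2
  · have : dn j t = ((j + 1 : ℕ) : ℝ) * (2 * π) - arccos t := by simp [dn]
    rw [this, cos_nat_mul_two_pi_sub, cos_arccos_clamp]
  · rw [h1 ht, dn, arccos_of_le_neg_one ht.le]
    simp
    ring

lemma relS_up (j : ℕ) {t : ℝ} (h1 : -1 ≤ t) (h2 : t ≤ 1) : RelS t (ee (up j t)) := by
  refine relS_ee ?_ (fun ht => absurd ht (not_lt.2 h1)) h2
  have : up j t = arccos t + ((j + 1 : ℕ) : ℝ) * (2 * π) := by simp [up]; ring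
  rw [this, cos_add_nat_mul_two_pi, cos_arccos_clamp]

lemma tendsto_ee_odd : ∃ J : ℕ → ℕ,
    Tendsto (fun k : ℕ => ee ((J k : ℝ) * (2 * π) + π)) atTop (𝓝 (lm (-π))) := by
  obtain ⟨J, hJ⟩ := exists_bb.choose_spec.2.2.2
  refine ⟨J, (hJ.mul_const (ee (-π))).congr fun k => ?_⟩
  rw [← ee_add]
  congr 1
  ring

/-- The lifting lemma: the fibre product of a continuum `X` with the solenoid over `ℝ` contains a
continuum that projects onto `X`. -/
theorem exists_liftS {X : Type*} [TopologicalSpace X] [CompactSpace X] [T2Space X]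
    [ConnectedSpace X] (u : X → ℝ) (hu : Continuous u) :
    ∃ D : Set (X × S), IsCompact D ∧ IsConnected D ∧ (∀ q ∈ D, RelS (u q.1) q.2) ∧
      ∀ x, ∃ y, (x, y) ∈ D := by
  have cdn : ∀ j, Continuous fun x => ee (dn j (u x)) := fun j =>
    continuous_ee.comp (by unfold dn; fun_prop)
  have cup : ∀ j, Continuous fun x => ee (up j (u x)) := fun j =>
    continuous_ee.comp (by unfold up; fun_prop)
  have clim : Continuous fun x => lm (-arccos (u x)) := continuous_lm.comp (by fun_prop)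
  by_cases hx0 : ∀ x, u x ≤ 1
  · have c : Continuous fun x : X => (x, ee (dn 0 (u x))) := continuous_id.prodMk (cdn 0)
    refine ⟨range fun x : X => (x, ee (dn 0 (u x))), isCompact_range c, isConnected_range c, ?_,
      fun x => ⟨_, x, rfl⟩⟩
    rintro _ ⟨x, rfl⟩
    exact relS_dn 0 (fun _ => rfl) (hx0 x)
  push Not at hx0
  obtain ⟨x0, hx0⟩ := hx0
  set Z : Set (X × S) := {q | RelS (u q.1) q.2} with hZ
  have hZc : IsClosed Z :=
    isClosed_relS.preimage (f := fun q : X × S => (u q.1, q.2)) (by fun_prop)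
  have : CompactSpace Z := isCompact_iff_compactSpace.1 hZc.isCompact
  let b : Z := ⟨(x0, lm (-arccos (u x0))), relS_lm (by linarith)⟩
  refine ⟨Subtype.val '' connectedComponent b,
    isClosed_connectedComponent.isCompact.image continuous_subtype_val,
    isConnected_connectedComponent.image _ continuous_subtype_val.continuousOn, ?_, ?_⟩
  · rintro _ ⟨z, -, rfl⟩
    exact z.2
  intro x1
  by_contra hcon
  push Not at hcon
  -- a clopen set containing the base point and missing the fibre over `x1`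
  obtain ⟨W, hW, hbW, hWx⟩ : ∃ W : Set Z, IsClopen W ∧ b ∈ W ∧ ∀ z ∈ W, (z : X × S).1 ≠ x1 := by
    have hF : IsCompact {z : Z | (z : X × S).1 = x1} :=
      (isClosed_eq (by fun_prop) continuous_const).isCompact
    have hdis : {z : Z | (z : X × S).1 = x1} ∩
        ⋂ s : { s : Set Z // IsClopen s ∧ b ∈ s }, (s : Set Z) = ∅ := by
      rw [← connectedComponent_eq_iInter_isClopen, eq_empty_iff_forall_notMem]
      rintro z ⟨hz1, hz2⟩
      refine hcon (z : X × S).2 ⟨z, hz2, ?_⟩
      exact Prod.ext hz1 rfl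
    obtain ⟨t, ht⟩ := hF.elim_finite_subfamily_closed _
      (fun s : { s : Set Z // IsClopen s ∧ b ∈ s } => s.2.1.1) hdis
    refine ⟨⋂ i ∈ t, (i : Set Z), isClopen_biInter_finset fun i _ => i.2.1,
      mem_iInter₂.2 fun i _ => i.2.2, fun z hz hz1 => ?_⟩
    have : z ∈ ({z : Z | (z : X × S).1 = x1} ∩ ⋂ i ∈ t, (i : Set Z)) := ⟨hz1, hz⟩
    rw [ht] at this
    exact this
  obtain ⟨χ, hχ0, hχ1, -⟩ := exists_continuous_zero_one_of_isClosed
    (X := X × S) (s := Subtype.val '' Wᶜ) (t := Subtype.val '' W)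
    (hW.compl.isClosed.isCompact.image continuous_subtype_val).isClosed
    (hW.isClosed.isCompact.image continuous_subtype_val).isClosed
    ((disjoint_image_iff Subtype.val_injective).2 disjoint_compl_left)
  have hχ : ∀ x y, RelS (u x) y → χ (x, y) = 0 ∨ χ (x, y) = 1 := fun x y h => by
    by_cases hw : (⟨(x, y), h⟩ : Z) ∈ W
    · exact Or.inr (hχ1 ⟨_, hw, rfl⟩)
    · exact Or.inl (hχ0 ⟨_, hw, rfl⟩)
  have hχx : ∀ y, RelS (u x1) y → χ (x1, y) = 0 := fun y h =>
    hχ0 ⟨⟨(x1, y), h⟩, fun hw => hWx _ hw rfl, rfl⟩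
  -- choose the number of windings
  obtain ⟨J, hJ⟩ : ∃ J : ℕ, ∀ x, |χ (x, lm (-π)) - χ (x, ee ((J : ℝ) * (2 * π) + π))| < 1 / 4 := by
    have h := (isCompact_univ (X := X)).eventually_forall_of_forall_eventually
      (x₀ := lm (-π)) (P := fun p x => |χ (x, lm (-π)) - χ (x, p)| < 1 / 4) (fun x _ => by
        have c : Continuous fun z : S × X => |χ (z.2, lm (-π)) - χ (z.2, z.1)| := by fun_prop
        refine c.continuousAt.eventually (gt_mem_nhds ?_)
        simp)
    obtain ⟨J0, hJ0⟩ := tendsto_ee_odd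
    obtain ⟨k, hJ⟩ := (hJ0.eventually h).exists
    exact ⟨J0 k, fun x => hJ x (mem_univ _)⟩
  let Φ : X → ℝ := fun x =>
    ∑ j ∈ Finset.range J, (χ (x, ee (dn j (u x))) - χ (x, ee (up j (u x)))) +
      χ (x, lm (-arccos (u x)))
  have cΦ : Continuous Φ := by
    refine Continuous.add (continuous_finsetSum _ fun j _ => ?_) ?_
    · exact (χ.continuous.comp (continuous_id.prodMk (cdn j))).sub
        (χ.continuous.comp (continuous_id.prodMk (cup j)))
    · exact χ.continuous.comp (continuous_id.prodMk clim)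
  have hR : ∀ x, 1 ≤ u x → Φ x = χ (x, lm (-arccos (u x))) := fun x hx => by
    simp [Φ, dn, up, arccos_of_one_le hx]
  have hL : ∀ x, u x ≤ -1 → |Φ x - χ (x, ee (dn 0 (u x)))| < 1 / 4 := fun x hx => by
    have e1 : ∀ j : ℕ, dn j (u x) = (j : ℝ) * (2 * π) + π := fun j => by
      rw [dn, arccos_of_le_neg_one hx]; ring
    have e2 : ∀ j : ℕ, up j (u x) = ((j + 1 : ℕ) : ℝ) * (2 * π) + π := fun j => by
      rw [up, arccos_of_le_neg_one hx]; push_cast; ring
    have e3 := Finset.sum_range_sub' (fun j : ℕ => χ (x, ee ((j : ℝ) * (2 * π) + π))) J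
    have e4 : Φ x = χ (x, ee (((0 : ℕ) : ℝ) * (2 * π) + π)) - χ (x, ee ((J : ℝ) * (2 * π) + π)) +
        χ (x, lm (-π)) := by
      simp only [Φ, e1, e2, arccos_of_le_neg_one hx]
      rw [e3]
    rw [e4, e1]
    convert hJ x using 2
    ring
  -- `Φ` never equals `1 / 2`
  have hhalf : ∀ x, Φ x ≠ 1 / 2 := fun x hx => by
    rcases le_total (u x) (-1) with h | h
    · have h1 := hL x h
      rw [hx] at h1
      rcases hχ x _ (relS_dn 0 (fun _ => rfl) (by linarith)) with h2 | h2 <;> rw [h2] at h1 <;>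
        norm_num [abs_lt] at h1
    rcases le_total (u x) 1 with h' | h'
    · have hint : ∀ y, RelS (u x) y → ∃ m : ℤ, χ (x, y) = m := fun y hy => by
        rcases hχ x y hy with h2 | h2
        · exact ⟨0, by simp [h2]⟩
        · exact ⟨1, by simp [h2]⟩
      choose! m hm using hint
      have : Φ x = ((∑ j ∈ Finset.range J, (m (ee (dn j (u x))) - m (ee (up j (u x)))) +
          m (lm (-arccos (u x))) : ℤ) : ℝ) := by
        push_cast
        simp only [Φ]
        rw [hm _ (relS_lm h)]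
        congr 1
        refine Finset.sum_congr rfl fun j _ => ?_
        rw [hm _ (relS_dn j (fun h0 => absurd h0 (not_lt.2 h)) h'), hm _ (relS_up j h h')]
      rw [hx] at this
      generalize (∑ j ∈ Finset.range J, (m (ee (dn j (u x))) - m (ee (up j (u x)))) +
          m (lm (-arccos (u x))) : ℤ) = k at this
      have h3 : ((2 * k : ℤ) : ℝ) = ((1 : ℤ) : ℝ) := by push_cast; linarith
      have h4 : 2 * k = 1 := Int.cast_injective h3
      omega
    · rw [hR x h'] at hx
      rcases hχ x _ (relS_lm h) with h2 | h2 <;> rw [h2] at hx <;> norm_num at hx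
  have hb1 : Φ x0 = 1 := by
    rw [hR x0 hx0.le]
    exact hχ1 ⟨b, hbW, rfl⟩
  have hx1 : Φ x1 ≤ 1 / 2 := by
    rcases le_total (u x1) (-1) with h | h
    · have h1 := hL x1 h
      rw [hχx _ (relS_dn 0 (fun _ => rfl) (by linarith))] at h1
      linarith [(abs_lt.1 h1).2]
    rcases le_total (u x1) 1 with h' | h'
    · have : Φ x1 = 0 := by
        simp only [Φ]
        rw [hχx _ (relS_lm h), add_zero]
        refine Finset.sum_eq_zero fun j _ => ?_
        rw [hχx _ (relS_dn j (fun h0 => absurd h0 (not_lt.2 h)) h'), hχx _ (relS_up j h h'), sub_zero]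
      linarith
    · rw [hR x1 h', hχx _ (relS_lm h)]
      norm_num
  obtain ⟨x, hx⟩ := intermediate_value_univ x1 x0 cΦ ⟨hx1, by rw [hb1]; norm_num⟩
  exact hhalf x hx

end Pool.Agent.MP_321614_gt.Sol
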